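import Mathlib

/-!
# The dimension of spaces of symmetric and alternating matrices
-/

set_option autoImplicit false
set_option linter.unusedSectionVars false

namespace Pool.Agent.H20.TJ

open Matrix Module

variable {T : Type} [Fintype T] {F : Type} [Field F] [CharZero F]

/-- the matrices with `Nᵀ = c N` and support in `R` -/
def symSup (R : T → T → Prop) (c : F) : Submodule F (Matrix T T F) where
  carrier := {N | (∀ s t, N t s = c * N s t) ∧ ∀ s t, ¬ R s t → N s t = 0}
  add_mem' := by
    rintro X Y ⟨h1, h2⟩ ⟨h3, h4⟩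
    refine ⟨fun s t => ?_, fun s t h => ?_⟩
    · rw [Matrix.add_apply, Matrix.add_apply, h1 s t, h3 s t, mul_add]
    · rw [Matrix.add_apply, h2 s t h, h4 s t h, add_zero]
  zero_mem' := ⟨fun s t => by rw [Matrix.zero_apply, Matrix.zero_apply, mul_zero], fun _ _ _ => rfl⟩
  smul_mem' := by
    rintro a X ⟨h1, h2⟩
    refine ⟨fun s t => ?_, fun s t h => ?_⟩
    · rw [Matrix.smul_apply, Matrix.smul_apply, h1 s t, smul_eq_mul, smul_eq_mul]
      ring
    · rw [Matrix.smul_apply, h2 s t h, smul_zero]

open scoped Classical in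
theorem card_pairs (f : T → ℕ) (hf : Function.Injective f) (R : T → T → Prop)
    (hR : ∀ s t, R s t → R t s) (q : Prop) :
    (2 * Nat.card {p : T × T // R p.1 p.2 ∧ (f p.1 < f p.2 ∨ (q ∧ p.1 = p.2))} : ℤ) =
      Nat.card {p : T × T // R p.1 p.2} + (if q then 1 else -1) * Nat.card {t : T // R t t} := by
  have h1 : Nat.card {p : T × T // R p.1 p.2 ∧ f p.1 < f p.2} =
      Nat.card {p : T × T // R p.1 p.2 ∧ f p.2 < f p.1} := by
    refine Nat.card_congr ⟨fun p => ⟨p.1.swap, hR _ _ p.2.1, p.2.2⟩,
      fun p => ⟨p.1.swap, hR _ _ p.2.1, p.2.2⟩, fun p => ?_, fun p => ?_⟩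
    · exact Subtype.ext (Prod.swap_swap _)
    · exact Subtype.ext (Prod.swap_swap _)
  have h2 : Nat.card {p : T × T // R p.1 p.2 ∧ p.1 = p.2} = Nat.card {t : T // R t t} := by
    refine Nat.card_congr ⟨fun p => ⟨p.1.1, by
      have h := p.2.1
      rw [← p.2.2] at h
      exact h⟩, fun t => ⟨(t.1, t.1), t.2, rfl⟩, fun p => ?_, fun t => rfl⟩
    exact Subtype.ext (Prod.ext rfl p.2.2)
  have h3 : Nat.card {p : T × T // R p.1 p.2} =
      Nat.card {p : T × T // R p.1 p.2 ∧ f p.1 < f p.2} +
      Nat.card {p : T × T // R p.1 p.2 ∧ f p.2 < f p.1} +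
      Nat.card {p : T × T // R p.1 p.2 ∧ p.1 = p.2} := by
    simp only [Nat.card_eq_fintype_card, Fintype.card_subtype]
    rw [← Finset.card_union_of_disjoint, ← Finset.card_union_of_disjoint]
    · congr 1
      ext p
      simp only [Finset.mem_filter, Finset.mem_univ, true_and, Finset.mem_union]
      constructor
      · intro h
        rcases lt_trichotomy (f p.1) (f p.2) with h' | h' | h'
        · exact Or.inl (Or.inl ⟨h, h'⟩)
        · exact Or.inr ⟨h, hf h'⟩
        · exact Or.inl (Or.inr ⟨h, h'⟩)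
      · rintro ((h | h) | h)
        · exact h.1
        · exact h.1
        · exact h.1
    · rw [Finset.disjoint_left]
      intro p hp hp'
      simp only [Finset.mem_filter, Finset.mem_univ, true_and, Finset.mem_union] at hp hp'
      rw [hp'.2] at hp
      rcases hp with h | h
      · exact lt_irrefl _ h.2
      · exact lt_irrefl _ h.2
    · rw [Finset.disjoint_left]
      intro p hp hp'
      simp only [Finset.mem_filter, Finset.mem_univ, true_and] at hp hp'
      exact lt_asymm hp.2 hp'.2
  by_cases hq : q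
  · have h4 : Nat.card {p : T × T // R p.1 p.2 ∧ (f p.1 < f p.2 ∨ (q ∧ p.1 = p.2))} =
        Nat.card {p : T × T // R p.1 p.2 ∧ f p.1 < f p.2} +
        Nat.card {p : T × T // R p.1 p.2 ∧ p.1 = p.2} := by
      simp only [Nat.card_eq_fintype_card, Fintype.card_subtype]
      rw [← Finset.card_union_of_disjoint]
      · congr 1
        ext p
        simp only [Finset.mem_filter, Finset.mem_univ, true_and, Finset.mem_union]
        tauto
      · rw [Finset.disjoint_left]
        intro p hp hp'
        simp only [Finset.mem_filter, Finset.mem_univ, true_and] at hp hp'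
        rw [hp'.2] at hp
        exact lt_irrefl _ hp.2
    rw [if_pos hq, h4, h3, ← h1, h2]
    push_cast
    ring
  · have h4 : Nat.card {p : T × T // R p.1 p.2 ∧ (f p.1 < f p.2 ∨ (q ∧ p.1 = p.2))} =
        Nat.card {p : T × T // R p.1 p.2 ∧ f p.1 < f p.2} := by
      refine Nat.card_congr (Equiv.subtypeEquivRight fun p => ?_)
      tauto
    rw [if_neg hq, h4, h3, ← h1, h2]
    push_cast
    ring

open scoped Classical in
theorem finrank_symSup (R : T → T → Prop) (hR : ∀ s t, R s t → R t s) (c : F)
    (hc : c = 1 ∨ c = -1) :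
    (2 * finrank F (symSup R c) : ℤ) =
      Nat.card {p : T × T // R p.1 p.2} + (if c = 1 then 1 else -1) * Nat.card {t : T // R t t} := by
  obtain ⟨f, hf⟩ : ∃ f : T → ℕ, Function.Injective f :=
    ⟨fun t => (Fintype.equivFin T t : ℕ), fun s t h => (Fintype.equivFin T).injective (Fin.ext h)⟩
  have hcc : c * c = 1 := by rcases hc with rfl | rfl <;> ring
  rw [← card_pairs f hf R hR (c = 1)]
  congr 2
  let I := {p : T × T // R p.1 p.2 ∧ (f p.1 < f p.2 ∨ (c = 1 ∧ p.1 = p.2))}
  let Φ : symSup R c →ₗ[F] (I → F) :=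
    { toFun := fun N p => N.1 p.1.1 p.1.2
      map_add' := fun _ _ => rfl
      map_smul' := fun _ _ => rfl }
  have hinj : Function.Injective Φ := by
    rw [← LinearMap.ker_eq_bot, LinearMap.ker_eq_bot']
    rintro ⟨N, h1, h2⟩ h
    refine Subtype.ext (Matrix.ext fun s t => ?_)
    change N s t = 0
    by_cases hst : R s t
    · rcases lt_trichotomy (f s) (f t) with h' | h' | h'
      · exact congrFun h ⟨(s, t), hst, Or.inl h'⟩
      · obtain rfl := hf h'
        rcases hc with rfl | rfl
        · exact congrFun h ⟨(s, s), hst, Or.inr ⟨rfl, rfl⟩⟩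
        · have h3 := h1 s s
          have h4 : (2 : F) * N s s = 0 := by linear_combination h3
          exact (mul_eq_zero.1 h4).resolve_left two_ne_zero
      · rw [h1 t s]
        have h3 : N t s = 0 := congrFun h ⟨(t, s), hR s t hst, Or.inl h'⟩
        rw [h3, mul_zero]
    · exact h2 s t hst
  have hsurj : Function.Surjective Φ := by
    intro g
    let N : Matrix T T F := Matrix.of fun s t =>
      if h : R s t ∧ f s < f t then g ⟨(s, t), h.1, Or.inl h.2⟩ else
      if h : R s t ∧ f t < f s then c * g ⟨(t, s), hR s t h.1, Or.inl h.2⟩ else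
      if h : R s t ∧ (c = 1 ∧ s = t) then g ⟨(s, t), h.1, Or.inr h.2⟩ else 0
    have hN : ∀ s t, N s t =
      if h : R s t ∧ f s < f t then g ⟨(s, t), h.1, Or.inl h.2⟩ else
      if h : R s t ∧ f t < f s then c * g ⟨(t, s), hR s t h.1, Or.inl h.2⟩ else
      if h : R s t ∧ (c = 1 ∧ s = t) then g ⟨(s, t), h.1, Or.inr h.2⟩ else 0 := fun _ _ => rfl
    refine ⟨⟨N, fun s t => ?_, fun s t hst => ?_⟩, funext fun p => ?_⟩
    · by_cases hst : R s t
      · have hts := hR s t hst
        rcases lt_trichotomy (f s) (f t) with h' | h' | h'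
        · rw [hN t s, hN s t, dif_neg (fun h => lt_asymm h' h.2), dif_pos ⟨hts, h'⟩,
            dif_pos ⟨hst, h'⟩]
        · obtain rfl := hf h'
          rcases hc with rfl | rfl
          · rw [one_mul]
          · rw [hN s s, dif_neg (fun h => lt_irrefl _ h.2), dif_neg (fun h => lt_irrefl _ h.2),
              dif_neg (fun h => absurd h.2.1 (by norm_num)), mul_zero]
        · rw [hN t s, hN s t, dif_pos ⟨hts, h'⟩, dif_neg (fun h => lt_asymm h' h.2),
            dif_pos ⟨hst, h'⟩, ← mul_assoc, hcc, one_mul]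
      · have hts : ¬ R t s := fun h => hst (hR t s h)
        rw [hN t s, hN s t, dif_neg (fun h => hts h.1), dif_neg (fun h => hts h.1),
          dif_neg (fun h => hts h.1), dif_neg (fun h => hst h.1), dif_neg (fun h => hst h.1),
          dif_neg (fun h => hst h.1), mul_zero]
    · rw [hN s t, dif_neg (fun h => hst h.1), dif_neg (fun h => hst h.1),
        dif_neg (fun h => hst h.1)]
    · obtain ⟨⟨s, t⟩, h1, h2⟩ := p
      change N s t = _
      rw [hN s t]
      rcases h2 with h2 | h2
      · rw [dif_pos ⟨h1, h2⟩]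
      · have h3 : s = t := h2.2
        subst h3
        rw [dif_neg (fun h => lt_irrefl _ h.2), dif_neg (fun h => lt_irrefl _ h.2),
          dif_pos ⟨h1, h2⟩]
  have h1 := (LinearEquiv.ofBijective Φ ⟨hinj, hsurj⟩).finrank_eq
  rw [h1, Module.finrank_fintype_fun_eq_card, Nat.card_eq_fintype_card]

end Pool.Agent.H20.TJ
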