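import Mathlib
import Pool.Agent.H20.TH.Comp
import Pool.Agent.H20.TD.Cut
import Pool.Agent.H20.TJ.Count

/-!
# The eigenvalues of the Hodge operator on the Lie algebra of a form
-/

set_option autoImplicit false
set_option linter.unusedSectionVars false

namespace Pool.Agent.H20.TJ

open Matrix Module Pool.Agent.H4.HW Pool.Agent.H20.TH
open Pool.Agent.H20.TD hiding Isolated IsBetti

variable {T B : Type} [Fintype T] [DecidableEq T] {F : Type} [Field F] [CharZero F]

/-- the skew operators `X` of the block `b` with `[D, X] = μ X` -/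
def adEig (blk : T → B) (E : Matrix T T F) (b : B) (D : Matrix T T F) (μ : F) :
    Submodule F (Matrix T T F) where
  carrier := {X | TD.pr F blk {b} * X = X ∧ X * TD.pr F blk {b} = X ∧ Xᵀ * E + E * X = 0 ∧
    D * X - X * D = μ • X}
  add_mem' := by
    rintro X Y ⟨h1, h2, h3, h4⟩ ⟨h5, h6, h7, h8⟩
    refine ⟨by rw [mul_add, h1, h5], by rw [add_mul, h2, h6], ?_, ?_⟩
    · rw [transpose_add, add_mul, mul_add, add_add_add_comm, h3, h7, add_zero]
    · rw [mul_add, add_mul, add_sub_add_comm, h4, h8, smul_add]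
  zero_mem' := ⟨mul_zero _, zero_mul _, by simp, by simp⟩
  smul_mem' := by
    rintro a X ⟨h1, h2, h3, h4⟩
    refine ⟨by rw [mul_smul_comm, h1], by rw [smul_mul_assoc, h2], ?_, ?_⟩
    · rw [transpose_smul, smul_mul_assoc, mul_smul_comm, ← smul_add, h3, smul_zero]
    · rw [smul_mul_assoc, mul_smul_comm, ← smul_sub, h4, smul_comm]

theorem mem_adEig {blk : T → B} {E : Matrix T T F} {b : B} {D : Matrix T T F} {μ : F}
    {X : Matrix T T F} : X ∈ adEig blk E b D μ ↔ (TD.pr F blk {b} * X = X ∧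
      X * TD.pr F blk {b} = X ∧ Xᵀ * E + E * X = 0 ∧ D * X - X * D = μ • X) := Iff.rfl

theorem pr_transpose (blk : T → B) (J : Set B) : (TD.pr F blk J)ᵀ = TD.pr F blk J := by
  rw [TD.pr, diagonal_transpose]

section count

variable {blk : T → B} {E Q D : Matrix T T F} {b : B} {h : T → F} {w μ ε : F}

/-- the matrix of a skew operator in the Hodge basis -/
theorem mem_iff (hε : ε = 1 ∨ ε = -1) (hE : IsBlock blk E) (uE : IsUnit E.det)
    (sym : ∀ s t, blk s = b → E t s = ε * E s t) (hQ : IsBlock blk Q) (uQ : IsUnit Q.det)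
    (hD : D = Q * diagonal h * Q⁻¹)
    (pol : ∀ s t, blk s = b → (Dᵀ * E + E * D) s t = w * E s t) (X : Matrix T T F) :
    X ∈ adEig blk E b D μ ↔ Qᵀ * (E * X) * Q ∈
      symSup (fun s t => blk s = b ∧ blk t = b ∧ h s + h t = w - μ) (-ε) := by
  obtain ⟨P, hP⟩ : ∃ P, P = TD.pr F blk {b} := ⟨_, rfl⟩
  have hPt : Pᵀ = P := by rw [hP]; exact pr_transpose blk {b}
  have hPc : ∀ {Z : Matrix T T F}, IsBlock blk Z → P * Z = Z * P := fun {Z} hZ => by
    rw [hP]; exact pr_comm hZ
  have hPa : ∀ (Z : Matrix T T F) s t, (P * Z) s t = open scoped Classical in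
      if blk s = b then Z s t else 0 := by
    intro Z s t
    rw [hP, pr_mul_apply]
    rfl
  have hPb : ∀ (Z : Matrix T T F) s t, (Z * P) s t = open scoped Classical in
      if blk t = b then Z s t else 0 := by
    intro Z s t
    have h1 := hPa Zᵀ t s
    rw [← hPt, ← transpose_mul, transpose_apply, transpose_apply] at h1
    exact h1
  have hεε : ε * ε = 1 := by rcases hε with rfl | rfl <;> ring
  have hDb : IsBlock blk D := by
    rw [hD]
    exact (hQ.mul (IsBlock.diagonal _)).mul (hQ.inv uQ)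
  have hPsym : P * Eᵀ = ε • (P * E) := by
    ext s t
    rw [hPa, Matrix.smul_apply, hPa]
    split_ifs with hs
    · rw [transpose_apply, sym s t hs, smul_eq_mul]
    · rw [smul_zero]
  have hPpol : P * (Dᵀ * E + E * D) = w • (P * E) := by
    ext s t
    rw [hPa, Matrix.smul_apply, hPa]
    split_ifs with hs
    · rw [pol s t hs, smul_eq_mul]
    · rw [smul_zero]
  have hDQ : D * Q = Q * diagonal h := by
    rw [hD, mul_assoc, Matrix.nonsing_inv_mul Q uQ, mul_one]
  have hinj : ∀ A C : Matrix T T F, Qᵀ * (E * A) * Q = Qᵀ * (E * C) * Q → A = C := by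
    intro A C hAC
    have u1 : IsUnit Q := (Matrix.isUnit_iff_isUnit_det Q).2 uQ
    have u2 : IsUnit Qᵀ := (Matrix.isUnit_iff_isUnit_det Qᵀ).2 (by rw [det_transpose]; exact uQ)
    have u3 : IsUnit E := (Matrix.isUnit_iff_isUnit_det E).2 uE
    exact u3.mul_left_cancel (u2.mul_left_cancel (u1.mul_right_cancel hAC))
  -- the relation between the eigenvalues
  have hrel : ∀ X : Matrix T T F, P * X = X →
      diagonal h * (Qᵀ * (E * X) * Q) + (Qᵀ * (E * X) * Q) * diagonal h =
      w • (Qᵀ * (E * X) * Q) - Qᵀ * (E * (D * X - X * D)) * Q := by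
    intro X hX
    have e1 : diagonal h * Qᵀ = Qᵀ * Dᵀ := by
      rw [← transpose_mul, hDQ, transpose_mul, diagonal_transpose]
    have e2 : Dᵀ * E * X + E * D * X = w • (E * X) := by
      have e3 : (Dᵀ * E + E * D) * X = (Dᵀ * E + E * D) * P * X := by
        rw [mul_assoc _ P X, hX]
      have hb : IsBlock blk (Dᵀ * E + E * D) := by
        intro s t hst
        rw [Matrix.add_apply, (hDb.transpose.mul hE) s t hst, (hE.mul hDb) s t hst, add_zero]
      rw [← hPc hb, hPpol, smul_mul_assoc, hPc hE, mul_assoc, hX, add_mul] at e3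
      exact e3
    have e4 : diagonal h * (Qᵀ * (E * X) * Q) = Qᵀ * (Dᵀ * E * X) * Q := by
      rw [← mul_assoc, ← mul_assoc, e1]
      simp only [mul_assoc]
    have e5 : (Qᵀ * (E * X) * Q) * diagonal h = Qᵀ * (E * X * D) * Q := by
      rw [mul_assoc (Qᵀ * (E * X)) Q, ← hDQ]
      simp only [mul_assoc]
    have e6 : Dᵀ * E * X = w • (E * X) - E * D * X := by rw [← e2]; abel
    rw [e4, e5, e6]
    simp only [mul_sub, sub_mul, mul_smul_comm, smul_mul_assoc, mul_assoc]
    abel
  constructor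
  · rintro ⟨h1, h2, h3, h4⟩
    rw [← hP] at h1 h2
    obtain ⟨N, hN⟩ : ∃ N, N = Qᵀ * (E * X) * Q := ⟨_, rfl⟩
    have hPN : P * N = N := by
      rw [hN]
      calc P * (Qᵀ * (E * X) * Q) = (P * Qᵀ) * (E * X) * Q := by simp only [mul_assoc]
        _ = Qᵀ * ((P * E) * X) * Q := by rw [hPc hQ.transpose]; simp only [mul_assoc]
        _ = Qᵀ * (E * (P * X)) * Q := by rw [hPc hE]; simp only [mul_assoc]
        _ = _ := by rw [h1]
    have hNP : N * P = N := by
      rw [hN]
      calc Qᵀ * (E * X) * Q * P = Qᵀ * (E * X) * (Q * P) := by simp only [mul_assoc]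
        _ = Qᵀ * (E * (X * P)) * Q := by rw [← hPc hQ]; simp only [mul_assoc]
        _ = _ := by rw [h2]
    have hr := hrel X h1
    rw [← hN, h4] at hr
    have hr' : diagonal h * N + N * diagonal h = (w - μ) • N := by
      rw [hr, mul_smul_comm, mul_smul_comm, smul_mul_assoc, ← hN, sub_smul]
    rw [← hN]
    refine ⟨fun s t => ?_, fun s t hst => ?_⟩
    · have e1 : Nᵀ = (-ε) • N := by
        have e2 : Xᵀ * Eᵀ = ε • (Xᵀ * E) := by
          calc Xᵀ * Eᵀ = (P * X)ᵀ * Eᵀ := by rw [h1]
            _ = Xᵀ * (P * Eᵀ) := by rw [transpose_mul, hPt, mul_assoc]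
            _ = ε • ((P * X)ᵀ * E) := by
              rw [hPsym, mul_smul_comm, transpose_mul, hPt, mul_assoc]
            _ = ε • (Xᵀ * E) := by rw [h1]
        have e3 : Xᵀ * E = -(E * X) := eq_neg_of_add_eq_zero_left h3
        rw [hN, transpose_mul, transpose_mul, transpose_mul, transpose_transpose, e2, e3]
        simp only [smul_neg, mul_neg, neg_mul, mul_smul_comm, smul_mul_assoc, neg_smul, mul_assoc]
      have e2 := congrFun (congrFun e1 s) t
      rw [transpose_apply, Matrix.smul_apply, smul_eq_mul] at e2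
      exact e2
    · by_cases hs : blk s = b
      swap
      · rw [← hPN, hPa, if_neg hs]
      by_cases ht : blk t = b
      swap
      · rw [← hNP, hPb, if_neg ht]
      have e1 := congrFun (congrFun hr' s) t
      rw [Matrix.add_apply, diagonal_mul, mul_diagonal, Matrix.smul_apply, smul_eq_mul] at e1
      have e2 : (h s + h t - (w - μ)) * N s t = 0 := by linear_combination e1
      exact (mul_eq_zero.1 e2).resolve_left fun h' => hst ⟨hs, ht, sub_eq_zero.1 h'⟩
  · rintro ⟨h1, h2⟩
    obtain ⟨N, hN⟩ : ∃ N, N = Qᵀ * (E * X) * Q := ⟨_, rfl⟩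
    rw [← hN] at h1 h2
    have hPN : P * N = N := by
      ext s t
      rw [hPa]
      split_ifs with hs
      · rfl
      · exact (h2 s t fun h' => hs h'.1).symm
    have hNP : N * P = N := by
      ext s t
      rw [hPb]
      split_ifs with ht
      · rfl
      · exact (h2 s t fun h' => ht h'.2.1).symm
    have g1 : P * X = X := by
      apply hinj
      rw [← hN, ← hPN, hN]
      calc Qᵀ * (E * (P * X)) * Q = Qᵀ * ((P * E) * X) * Q := by rw [hPc hE]; simp only [mul_assoc]
        _ = (P * Qᵀ) * (E * X) * Q := by rw [hPc hQ.transpose]; simp only [mul_assoc]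
        _ = _ := by simp only [mul_assoc]
    have g2 : X * P = X := by
      apply hinj
      rw [← hN, ← hNP, hN]
      calc Qᵀ * (E * (X * P)) * Q = Qᵀ * (E * X) * (P * Q) := by simp only [mul_assoc]
        _ = _ := by rw [hPc hQ]; simp only [mul_assoc]
    rw [mem_adEig, ← hP]
    refine ⟨g1, g2, ?_, ?_⟩
    · have e1 : Nᵀ = (-ε) • N := by
        ext s t
        rw [transpose_apply, Matrix.smul_apply, smul_eq_mul, h1]
      have e2 : Xᵀ * Eᵀ = (-ε) • (E * X) := by
        rw [hN, transpose_mul, transpose_mul, transpose_mul, transpose_transpose] at e1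
        have u1 : IsUnit Q := (Matrix.isUnit_iff_isUnit_det Q).2 uQ
        have u2 : IsUnit Qᵀ :=
          (Matrix.isUnit_iff_isUnit_det Qᵀ).2 (by rw [det_transpose]; exact uQ)
        apply u2.mul_left_cancel
        apply u1.mul_right_cancel
        rw [mul_smul_comm, smul_mul_assoc, ← e1]
        simp only [mul_assoc]
      have e3 : Xᵀ * E = ε • (Xᵀ * Eᵀ) := by
        calc Xᵀ * E = (P * X)ᵀ * E := by rw [g1]
          _ = Xᵀ * (P * E) := by rw [transpose_mul, hPt, mul_assoc]
          _ = ε • (Xᵀ * (P * Eᵀ)) := by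
            rw [hPsym, mul_smul_comm, smul_smul, hεε, one_smul]
          _ = ε • ((P * X)ᵀ * Eᵀ) := by rw [transpose_mul, hPt, mul_assoc]
          _ = ε • (Xᵀ * Eᵀ) := by rw [g1]
      rw [e3, e2, smul_smul, mul_neg, hεε, neg_smul, one_smul, neg_add_cancel]
    · have hr := hrel X g1
      rw [← hN] at hr
      have hr' : diagonal h * N + N * diagonal h = (w - μ) • N := by
        ext s t
        rw [Matrix.add_apply, diagonal_mul, mul_diagonal, Matrix.smul_apply, smul_eq_mul]
        by_cases hst : blk s = b ∧ blk t = b ∧ h s + h t = w - μ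
        · rw [← hst.2.2]
          ring
        · rw [h2 s t hst]
          ring
      rw [hr', sub_smul] at hr
      have e1 : Qᵀ * (E * (D * X - X * D)) * Q = μ • N := (sub_right_inj.1 hr).symm
      apply hinj
      rw [e1, hN, mul_smul_comm, mul_smul_comm, smul_mul_assoc]

/-- **The dimension of the eigenspaces.** -/
theorem finrank_adEig (hε : ε = 1 ∨ ε = -1) (hE : IsBlock blk E) (uE : IsUnit E.det)
    (sym : ∀ s t, blk s = b → E t s = ε * E s t) (hQ : IsBlock blk Q) (uQ : IsUnit Q.det)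
    (hD : D = Q * diagonal h * Q⁻¹)
    (pol : ∀ s t, blk s = b → (Dᵀ * E + E * D) s t = w * E s t) :
    finrank F (adEig blk E b D μ) = finrank F
      (symSup (fun s t => blk s = b ∧ blk t = b ∧ h s + h t = w - μ) (-ε)) := by
  have u2 : IsUnit Qᵀ.det := by rw [det_transpose]; exact uQ
  let Ψ : Matrix T T F ≃ₗ[F] Matrix T T F :=
    { toFun := fun X => Qᵀ * (E * X) * Q
      map_add' := fun X Y => by rw [mul_add, mul_add, add_mul]
      map_smul' := fun c X => by
        rw [mul_smul_comm, mul_smul_comm, smul_mul_assoc, RingHom.id_apply]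
      invFun := fun N => E⁻¹ * (Qᵀ⁻¹ * N * Q⁻¹)
      left_inv := fun X => by
        calc E⁻¹ * (Qᵀ⁻¹ * (Qᵀ * (E * X) * Q) * Q⁻¹) =
            E⁻¹ * ((Qᵀ⁻¹ * Qᵀ) * (E * X) * (Q * Q⁻¹)) := by simp only [mul_assoc]
          _ = (E⁻¹ * E) * X := by
            rw [Matrix.nonsing_inv_mul _ u2, Matrix.mul_nonsing_inv _ uQ, one_mul, mul_one,
              mul_assoc]
          _ = X := by rw [Matrix.nonsing_inv_mul _ uE, one_mul]
      right_inv := fun N => by
        calc Qᵀ * (E * (E⁻¹ * (Qᵀ⁻¹ * N * Q⁻¹))) * Q =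
            Qᵀ * ((E * E⁻¹) * (Qᵀ⁻¹ * N * Q⁻¹)) * Q := by simp only [mul_assoc]
          _ = (Qᵀ * Qᵀ⁻¹) * N * (Q⁻¹ * Q) := by
            rw [Matrix.mul_nonsing_inv _ uE, one_mul]
            simp only [mul_assoc]
          _ = N := by
            rw [Matrix.mul_nonsing_inv _ u2, Matrix.nonsing_inv_mul _ uQ, one_mul, mul_one] }
  have h1 : (adEig blk E b D μ).map Ψ.toLinearMap =
      symSup (fun s t => blk s = b ∧ blk t = b ∧ h s + h t = w - μ) (-ε) := by
    ext N
    constructor
    · rintro ⟨X, hX, rfl⟩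
      exact (mem_iff hε hE uE sym hQ uQ hD pol X).1 hX
    · intro hN
      refine ⟨Ψ.symm N, ?_, Ψ.apply_symm_apply N⟩
      refine (mem_iff hε hE uE sym hQ uQ hD pol _).2 ?_
      have h2 : Qᵀ * (E * Ψ.symm N) * Q = N := Ψ.apply_symm_apply N
      rw [h2]
      exact hN
  rw [← h1]
  exact (Ψ.finrank_map_eq _).symm

end count

end Pool.Agent.H20.TJ
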