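import Mathlib
import Pool.Agent.H20.TJ.Eig

/-!
# Linked Lie algebras have the same Hodge numbers
-/

set_option autoImplicit false
set_option linter.unusedSectionVars false

namespace Pool.Agent.H20.TJ

open Matrix Module Pool.Agent.H4.HW Pool.Agent.H20.TH
open Pool.Agent.H20.TD hiding Isolated IsBetti

variable {T B : Type} [Fintype T] [DecidableEq T] {k F : Type} [Field k] [CharZero k] [Field F]
  [CharZero F] [Algebra k F]

theorem eq_zero_of_fun {X : Matrix T T F} (h : ∀ φ : F →ₗ[k] k, X.map φ = 0) : X = 0 := by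
  ext s t
  refine (Module.forall_dual_apply_eq_zero_iff k (X s t)).1 fun φ => ?_
  have h1 := congrFun (congrFun (h φ) s) t
  rw [map_apply, Matrix.zero_apply] at h1
  exact h1

theorem extk_block {blk : T → B} {𝔥 : Submodule k (Matrix T T k)} (hb : ∀ Z ∈ 𝔥, IsBlock blk Z)
    {Z : Matrix T T F} (hZ : Z ∈ extk F 𝔥) : IsBlock blk Z := by
  intro s t hst
  refine (Module.forall_dual_apply_eq_zero_iff k (Z s t)).1 fun φ => ?_
  have h1 := hb _ (fmap_mem hZ φ) s t hst
  rw [map_apply] at h1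
  exact h1

theorem pr_fmap (blk : T → B) (J : Set B) (Z : Matrix T T F) (φ : F →ₗ[k] k) :
    (TD.pr F blk J * Z).map φ = TD.pr k blk J * Z.map φ := by
  rw [← pr_map (k := k) (F := F), fmap_left]

theorem pr_fmap' (blk : T → B) (J : Set B) (Z : Matrix T T F) (φ : F →ₗ[k] k) :
    (Z * TD.pr F blk J).map φ = Z.map φ * TD.pr k blk J := by
  rw [← pr_map (k := k) (F := F), fmap_right]

/-- the elements of `𝔥` which are mapped to eigenvectors -/
def adPre (blk : T → B) (𝔥 : Submodule k (Matrix T T k)) (b : B) (D : Matrix T T F) (μ : F) :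
    Submodule F (Matrix T T F) where
  carrier := {Z | Z ∈ extk F 𝔥 ∧ TD.pr F blk {b} * (D * Z - Z * D - μ • Z) = 0}
  add_mem' := by
    rintro X Y ⟨h1, h2⟩ ⟨h3, h4⟩
    refine ⟨add_mem h1 h3, ?_⟩
    have h5 : D * (X + Y) - (X + Y) * D - μ • (X + Y) =
        (D * X - X * D - μ • X) + (D * Y - Y * D - μ • Y) := by
      rw [mul_add, add_mul, smul_add]
      abel
    rw [h5, mul_add, h2, h4, add_zero]
  zero_mem' := ⟨zero_mem _, by simp⟩
  smul_mem' := by
    rintro a X ⟨h1, h2⟩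
    refine ⟨Submodule.smul_mem _ a h1, ?_⟩
    have h5 : D * (a • X) - (a • X) * D - μ • (a • X) = a • (D * X - X * D - μ • X) := by
      rw [mul_smul_comm, smul_mul_assoc, smul_comm μ a, ← smul_sub, ← smul_sub]
    rw [h5, mul_smul_comm, h2, smul_zero]

theorem map_adPre {blk : T → B} {E : Matrix T T k} {𝔥 : Submodule k (Matrix T T k)} {b : B}
    {D : Matrix T T F} {μ : F} (hb : ∀ Z ∈ 𝔥, IsBlock blk Z) (hE : IsBlock blk E)
    (hDb : IsBlock blk D)
    (hsk : ∀ Z ∈ 𝔥, ∀ s t, blk s = b → (Zᵀ * E + E * Z) s t = 0)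
    (hsurj : ∀ X, TD.pr k blk {b} * X = X → X * TD.pr k blk {b} = X → Xᵀ * E + E * X = 0 →
      ∃ Z ∈ 𝔥, TD.pr k blk {b} * Z = X) :
    (adPre blk 𝔥 b D μ).map (LinearMap.mulLeft F (TD.pr F blk {b})) =
      adEig blk (E.map (algebraMap k F)) b D μ := by
  have hDp : TD.pr F blk {b} * D = D * TD.pr F blk {b} := pr_comm hDb
  ext X
  constructor
  · rintro ⟨Z, ⟨hZ, hZ2⟩, rfl⟩
    rw [LinearMap.mulLeft_apply]
    have hZb := extk_block hb hZ
    have hZp : TD.pr F blk {b} * Z = Z * TD.pr F blk {b} := pr_comm hZb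
    obtain ⟨X, hX⟩ : ∃ X, X = TD.pr F blk {b} * Z := ⟨_, rfl⟩
    have g1 : TD.pr F blk {b} * X = X := by rw [hX, ← mul_assoc, pr_sq]
    have g2 : X * TD.pr F blk {b} = X := by rw [hX, mul_assoc, ← hZp, ← mul_assoc, pr_sq]
    rw [← hX]
    refine ⟨g1, g2, ?_, ?_⟩
    · have e1 : Xᵀ * E.map (algebraMap k F) + E.map (algebraMap k F) * X =
          TD.pr F blk {b} * (Xᵀ * E.map (algebraMap k F) + E.map (algebraMap k F) * X) := by
        rw [mul_add, ← mul_assoc, ← mul_assoc, pr_comm (hE.map), mul_assoc _ _ X, g1]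
        congr 2
        have e2 := congrArg Matrix.transpose g2
        rw [transpose_mul, pr_transpose] at e2
        exact e2.symm
      rw [e1]
      ext s t
      rw [pr_mul_apply]
      split_ifs with hs
      · rw [hX, pr_rows (J := {b}) (b := b) rfl hE.map hZb s t hs]
        refine (Module.forall_dual_apply_eq_zero_iff k _).1 fun φ => ?_
        have e2 := hsk _ (fmap_mem hZ φ) s t hs
        have e3 : (Zᵀ * E.map (algebraMap k F) + E.map (algebraMap k F) * Z).map φ =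
            (Z.map φ)ᵀ * E + E * Z.map φ := by
          rw [fmap_add, fmap_left, fmap_right, transpose_map]
        rw [← e3, map_apply] at e2
        exact e2
      · rfl
    · rw [hX, mul_assoc, ← mul_assoc D, ← hDp, mul_assoc, ← mul_sub]
      rw [mul_sub, sub_eq_zero, mul_smul_comm] at hZ2
      exact hZ2
  · rintro ⟨h1, h2, h3, h4⟩
    have hmem : X ∈ extk F (𝔥.map (LinearMap.mulLeft k (TD.pr k blk {b}))) := by
      refine mem_extk fun φ => ?_
      obtain ⟨Z, hZ, h⟩ := hsurj (X.map φ) (by rw [← pr_fmap, h1]) (by rw [← pr_fmap', h2]) (by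
        have e1 := congrArg (fun Z : Matrix T T F => Z.map φ) h3
        beta_reduce at e1
        rw [fmap_add, fmap_left, fmap_right, transpose_map, fmap_zero] at e1
        exact e1)
      exact ⟨Z, hZ, h⟩
    have hle : extk F (𝔥.map (LinearMap.mulLeft k (TD.pr k blk {b}))) ≤
        (extk F 𝔥).map (LinearMap.mulLeft F (TD.pr F blk {b})) := by
      refine Submodule.span_le.2 ?_
      rintro _ ⟨_, ⟨Z, hZ, rfl⟩, rfl⟩
      refine ⟨Z.map (algebraMap k F), extk_mem hZ, ?_⟩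
      rw [LinearMap.mulLeft_apply]
      beta_reduce
      rw [LinearMap.mulLeft_apply, map_mul', pr_map]
    obtain ⟨Z, hZ, h⟩ := hle hmem
    rw [LinearMap.mulLeft_apply] at h
    refine ⟨Z, ⟨hZ, ?_⟩, h⟩
    have hZp : TD.pr F blk {b} * (D * Z - Z * D - μ • Z) = D * X - X * D - μ • X := by
      rw [mul_sub, mul_sub, mul_smul_comm, ← mul_assoc, hDp, mul_assoc, h, ← mul_assoc, h]
    rw [hZp, h4, sub_self]

/-- **Linked Lie algebras have the same Hodge numbers.** -/
theorem finrank_link {blk : T → B} {E : Matrix T T k} {𝔥 : Submodule k (Matrix T T k)} {i j : B}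
    {D : Matrix T T F} {μ : F} (hb : ∀ Z ∈ 𝔥, IsBlock blk Z) (hE : IsBlock blk E)
    (hDb : IsBlock blk D) (hD : ∀ Z ∈ 𝔥, D * Z.map (algebraMap k F) - Z.map (algebraMap k F) * D ∈
      extk F 𝔥)
    (hski : ∀ Z ∈ 𝔥, ∀ s t, blk s = i → (Zᵀ * E + E * Z) s t = 0)
    (hskj : ∀ Z ∈ 𝔥, ∀ s t, blk s = j → (Zᵀ * E + E * Z) s t = 0)
    (hsi : ∀ X, TD.pr k blk {i} * X = X → X * TD.pr k blk {i} = X → Xᵀ * E + E * X = 0 →
      ∃ Z ∈ 𝔥, TD.pr k blk {i} * Z = X)
    (hsj : ∀ X, TD.pr k blk {j} * X = X → X * TD.pr k blk {j} = X → Xᵀ * E + E * X = 0 →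
      ∃ Z ∈ 𝔥, TD.pr k blk {j} * Z = X)
    (hij : ∀ Z ∈ 𝔥, TD.pr k blk {i} * Z = 0 ↔ TD.pr k blk {j} * Z = 0) :
    finrank F (adEig blk (E.map (algebraMap k F)) i D μ) =
      finrank F (adEig blk (E.map (algebraMap k F)) j D μ) := by
  have hker : ∀ Z ∈ extk F 𝔥, TD.pr F blk {i} * Z = 0 ↔ TD.pr F blk {j} * Z = 0 := by
    intro Z hZ
    constructor
    · intro h
      refine eq_zero_of_fun (k := k) fun φ => ?_
      rw [pr_fmap]
      refine (hij _ (fmap_mem hZ φ)).1 ?_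
      rw [← pr_fmap, h, fmap_zero]
    · intro h
      refine eq_zero_of_fun (k := k) fun φ => ?_
      rw [pr_fmap]
      refine (hij _ (fmap_mem hZ φ)).2 ?_
      rw [← pr_fmap, h, fmap_zero]
  have hDm : ∀ Z ∈ extk F 𝔥, D * Z - Z * D ∈ extk F 𝔥 := by
    intro Z hZ
    induction hZ using Submodule.span_induction with
    | mem x hx =>
      obtain ⟨x, hx, rfl⟩ := hx
      exact hD x hx
    | zero => simp
    | add x y _ _ h1 h2 =>
      have h3 : D * (x + y) - (x + y) * D = (D * x - x * D) + (D * y - y * D) := by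
        rw [mul_add, add_mul]
        abel
      rw [h3]
      exact add_mem h1 h2
    | smul c x _ h1 =>
      rw [mul_smul_comm, smul_mul_assoc, ← smul_sub]
      exact Submodule.smul_mem _ c h1
  have hU : adPre blk 𝔥 i D μ = adPre blk 𝔥 j D μ := by
    ext Z
    have h1 : Z ∈ extk F 𝔥 → D * Z - Z * D - μ • Z ∈ extk F 𝔥 := fun hZ =>
      sub_mem (hDm Z hZ) (Submodule.smul_mem _ μ hZ)
    constructor
    · rintro ⟨hZ, h⟩
      exact ⟨hZ, (hker _ (h1 hZ)).1 h⟩
    · rintro ⟨hZ, h⟩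
      exact ⟨hZ, (hker _ (h1 hZ)).2 h⟩
  rw [← map_adPre hb hE hDb hski hsi, ← map_adPre hb hE hDb hskj hsj, ← hU]
  obtain ⟨U, hUd⟩ : ∃ U, U = adPre blk 𝔥 i D μ := ⟨_, rfl⟩
  have hUh : ∀ Z ∈ U, Z ∈ extk F 𝔥 := by
    intro Z hZ
    rw [hUd] at hZ
    exact hZ.1
  rw [← hUd]
  obtain ⟨f, hf⟩ : ∃ f, f = (LinearMap.mulLeft F (TD.pr F blk {i})).domRestrict U := ⟨_, rfl⟩
  obtain ⟨g, hg⟩ : ∃ g, g = (LinearMap.mulLeft F (TD.pr F blk {j})).domRestrict U := ⟨_, rfl⟩
  have h1 : LinearMap.ker f = LinearMap.ker g := by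
    ext Z
    rw [LinearMap.mem_ker, LinearMap.mem_ker, hf, hg]
    exact hker Z.1 (hUh Z.1 Z.2)
  have h2 := LinearMap.finrank_range_add_finrank_ker f
  have h3 := LinearMap.finrank_range_add_finrank_ker g
  rw [h1] at h2
  have h4 : LinearMap.range f = U.map (LinearMap.mulLeft F (TD.pr F blk {i})) := by
    rw [hf]
    exact LinearMap.range_domRestrict _ _
  have h5 : LinearMap.range g = U.map (LinearMap.mulLeft F (TD.pr F blk {j})) := by
    rw [hg]
    exact LinearMap.range_domRestrict _ _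
  rw [← h4, ← h5]
  omega

end Pool.Agent.H20.TJ
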